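import Mathlib
import Pool.Agent.N411.HYO.Graph

set_option autoImplicit false

/-! Labellings of Cartesian products: basic lemmas. -/

namespace Pool.Agent.H50.HYP

open Finset

/-- the integer `d` has distance at least `p` from all multiples of `N` -/
def Far (p N : ℕ) (d : ℤ) : Prop := ∀ k : ℤ, (p : ℤ) ≤ |d + k * N|

theorem far_of {p N a b : ℕ} (h1 : (p : ℤ) ≤ |(a : ℤ) - b|)
    (h2 : |(a : ℤ) - b| ≤ (N : ℤ) - p) : Far p N ((a : ℤ) - b) := by
  intro k
  rcases eq_or_ne k 0 with rfl | hk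
  · simpa using h1
  · have h3 : (1 : ℤ) ≤ |k| := Int.one_le_abs hk
    have h4 : (N : ℤ) ≤ |k * N| := by
      rw [abs_mul, Nat.abs_cast]
      nlinarith [Int.natCast_nonneg N]
    have h5 : |k * (N : ℤ)| ≤ |(a : ℤ) - b + k * N| + |(a : ℤ) - b| := by
      have := abs_sub_abs_le_abs_sub (k * (N : ℤ)) (-((a : ℤ) - b))
      rw [abs_neg] at this
      have e : k * (N : ℤ) - -((a : ℤ) - b) = (a : ℤ) - b + k * N := by ring
      rw [e] at this
      linarith
    linarith

theorem far_shift {p N : ℕ} {d : ℤ} (h : Far p N d) (m : ℤ) : Far p N (d + m * N) := by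
  intro k
  have := h (m + k)
  have e : d + m * (N : ℤ) + k * N = d + (m + k) * N := by ring
  rw [e]; exact this

theorem far_neg {p N : ℕ} {d : ℤ} (h : Far p N d) : Far p N (-d) := by
  intro k
  have h1 := h (-k)
  have e : -d + k * (N : ℤ) = -(d + -k * N) := by ring
  rw [e, abs_neg]
  exact h1

theorem far_mono {p q N : ℕ} {d e : ℤ} (h : Far (p + q) N d) (he : |e| ≤ q) :
    Far p N (d + e) := by
  intro k
  have h1 := h k
  push_cast at h1
  have h2 := abs_sub_abs_le_abs_sub (d + k * (N : ℤ)) (-e)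
  rw [abs_neg] at h2
  have e1 : d + k * (N : ℤ) - -e = d + e + k * N := by ring
  rw [e1] at h2
  linarith

theorem far_mod {p N a b : ℕ} (h : Far p N ((a : ℤ) - b)) :
    Far p N (((a % N : ℕ) : ℤ) - ((b % N : ℕ) : ℤ)) := by
  have h1 : (a : ℤ) = N * (a / N : ℕ) + (a % N : ℕ) := by exact_mod_cast (Nat.div_add_mod a N).symm
  have h2 : (b : ℤ) = N * (b / N : ℕ) + (b % N : ℕ) := by exact_mod_cast (Nat.div_add_mod b N).symm
  have h3 := far_shift h (((b / N : ℕ) : ℤ) - ((a / N : ℕ) : ℤ))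
  have e : (a : ℤ) - b + (((b / N : ℕ) : ℤ) - ((a / N : ℕ) : ℤ)) * N =
      ((a % N : ℕ) : ℤ) - ((b % N : ℕ) : ℤ) := by
    linear_combination h1 - h2
  rw [e] at h3
  exact h3

theorem of_far {p N a b : ℕ} (ha : a < N) (hb : b < N) (h : Far p N ((a : ℤ) - b)) :
    (p : ℤ) ≤ |(a : ℤ) - b| ∧ |(a : ℤ) - b| ≤ (N : ℤ) - p := by
  have h0 := h 0
  have h1 := h 1
  have h2 := h (-1)
  rw [zero_mul, add_zero] at h0
  refine ⟨h0, ?_⟩
  have ha' : (a : ℤ) < N := by exact_mod_cast ha
  have hb' : (b : ℤ) < N := by exact_mod_cast hb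
  have ha0 : (0 : ℤ) ≤ a := Int.natCast_nonneg a
  have hb0 : (0 : ℤ) ≤ b := Int.natCast_nonneg b
  rcases le_total (b : ℤ) a with hab | hab
  · rw [abs_of_nonneg (by linarith : (0 : ℤ) ≤ (a : ℤ) - b)]
    rw [abs_of_neg (by linarith : (a : ℤ) - b + -1 * N < 0)] at h2
    linarith
  · rw [abs_of_nonpos (by linarith : (a : ℤ) - b ≤ 0)]
    rw [abs_of_pos (by linarith : 0 < (a : ℤ) - b + 1 * N)] at h1
    linarith

/-- increasing enumeration of a finite set that contains an initial segment -/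
theorem enum (A : Finset ℕ) (m M : ℕ) (hm : ∀ z < m, z ∈ A) (hM : M ≤ A.card) :
    ∃ ψ : ℕ → ℕ, (∀ y < M, ψ y ∈ A) ∧ (∀ y z, y ≤ z → z < M → ψ y + (z - y) ≤ ψ z) ∧
      (∀ y < m, y < M → ψ y = y) := by
  classical
  set e := A.orderEmbOfFin rfl with he
  let ψ : ℕ → ℕ := fun y => if h : y < A.card then e ⟨y, h⟩ else 0
  have hψ : ∀ y (h : y < A.card), ψ y = e ⟨y, h⟩ := fun y h => dif_pos h
  have hmem : ∀ y < A.card, ψ y ∈ A := by
    intro y hy
    rw [hψ y hy]
    exact A.orderEmbOfFin_mem rfl _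
  have hlt : ∀ y z, y < z → z < A.card → ψ y < ψ z := by
    intro y z hyz hz
    rw [hψ y (hyz.trans hz), hψ z hz]
    exact e.strictMono hyz
  have hadd : ∀ k y, y + k < A.card → ψ y + k ≤ ψ (y + k) := by
    intro k
    induction k with
    | zero => intro y _; simp
    | succ k ih =>
      intro y hy
      have h1 := ih y (by omega)
      have h2 := hlt (y + k) (y + (k + 1)) (by omega) hy
      omega
  have hid : ∀ y, y < m → y < A.card → ψ y = y := by
    intro y
    induction y using Nat.strong_induction_on with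
    | _ y ih =>
      intro hym hyA
      have h1 : y ∈ A := hm y hym
      have h2 : y ∈ Set.range e := by
        rw [he, Finset.range_orderEmbOfFin]
        exact_mod_cast h1
      obtain ⟨⟨k, hk⟩, hke⟩ := h2
      have h3 : ψ k = y := by rw [hψ k hk]; exact hke
      have h4 := hadd k 0 (by omega)
      rw [Nat.zero_add, h3] at h4
      rcases Nat.lt_or_ge k y with h5 | h5
      · have h6 := ih k h5 (by omega) hk
        omega
      · have : k = y := by omega
        rw [← this]; rw [h3]; exact this.symm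
  refine ⟨ψ, fun y hy => hmem y (by omega), ?_, fun y h1 h2 => hid y h1 (by omega)⟩
  intro y z hyz hz
  have := hadd (z - y) y (by omega)
  rwa [show y + (z - y) = z by omega] at this

theorem box_ncard {V W : Type} [Fintype V] [Fintype W] (G : SimpleGraph V) (H : SimpleGraph W)
    (v : V) (w : W) : ((G.boxProd H).neighborSet (v, w)).ncard =
      (G.neighborSet v).ncard + (H.neighborSet w).ncard := by
  rw [SimpleGraph.neighborSet_boxProd, Set.ncard_union_eq ?_ (Set.toFinite _) (Set.toFinite _),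
    Set.ncard_prod, Set.ncard_prod, Set.ncard_singleton, Set.ncard_singleton, mul_one, one_mul]
  rw [Set.disjoint_left]
  rintro ⟨a, b⟩ ⟨h1, h2⟩ ⟨h3, h4⟩
  simp only [Set.mem_singleton_iff] at h2 h3
  simp only at h1 h4
  rw [h3] at h1
  exact G.loopless.irrefl v h1

end Pool.Agent.H50.HYP
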