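import Pool.Agent.H50.HYP.Basic

set_option autoImplicit false

/-! Circular labellings of Cartesian products. -/

namespace Pool.Agent.H50.HYP

open Finset

/-- a circular (p,1)-total labelling with `N` labels -/
def Circ {V : Type} (G : SimpleGraph V) (p N : ℕ) : Prop :=
  ∃ (fV : V → ℕ) (fE : Sym2 V → ℕ),
    (∀ v, fV v < N) ∧ (∀ e ∈ G.edgeSet, fE e < N) ∧
    (∀ u v, G.Adj u v → fV u ≠ fV v) ∧
    (∀ u v w, G.Adj u v → G.Adj u w → v ≠ w → fE s(u, v) ≠ fE s(u, w)) ∧
    (∀ u v, G.Adj u v → (p : ℤ) ≤ |(fV u : ℤ) - (fE s(u, v) : ℤ)| ∧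
      |(fV u : ℤ) - (fE s(u, v) : ℤ)| ≤ (N : ℤ) - p)

/-- the same with all labels of the vertices at most `m` -/
def CircB {V : Type} (G : SimpleGraph V) (p N m : ℕ) : Prop :=
  ∃ (fV : V → ℕ) (fE : Sym2 V → ℕ),
    (∀ v, fV v ≤ m) ∧ (∀ e ∈ G.edgeSet, fE e < N) ∧
    (∀ u v, G.Adj u v → fV u ≠ fV v) ∧
    (∀ u v w, G.Adj u v → G.Adj u w → v ≠ w → fE s(u, v) ≠ fE s(u, w)) ∧
    (∀ u v, G.Adj u v → (p : ℤ) ≤ |(fV u : ℤ) - (fE s(u, v) : ℤ)| ∧
      |(fV u : ℤ) - (fE s(u, v) : ℤ)| ≤ (N : ℤ) - p)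

theorem Circ.mono {V : Type} {G : SimpleGraph V} {p N N' : ℕ} (h : Circ G p N) (hN : N ≤ N') :
    Circ G p N' := by
  obtain ⟨fV, fE, h1, h2, h3, h4, h5⟩ := h
  exact ⟨fV, fE, fun v => (h1 v).trans_le hN, fun e he => (h2 e he).trans_le hN, h3, h4,
    fun u v huv => ⟨(h5 u v huv).1, (h5 u v huv).2.trans (by
      have : (N : ℤ) ≤ N' := by exact_mod_cast hN
      linarith)⟩⟩

/-- **Product theorem**, circular form. -/
theorem prod_circ {V W : Type} [Fintype V] [Fintype W] (G : SimpleGraph V) (H : SimpleGraph W)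
    (p q M N : ℕ) (hp : 1 ≤ p) (hq : 2 * q < M) (hG : Circ G (p + q) N)
    (hH : CircB H p M (2 * q)) (hN : ∀ g, (G.neighborSet g).ncard + M ≤ N) :
    Circ (G.boxProd H) p N := by
  classical
  obtain ⟨fG, eG, g1, g2, g3, g4, g5⟩ := hG
  obtain ⟨fH, eH, b1, b2, b3, b4, b5⟩ := hH
  -- real labels
  let L : V → ℕ → ℕ := fun g z => (fG g + (N - q) + z) % N
  let A : V → Finset ℕ := fun g =>
    (range N).filter (fun z => ∀ g', G.Adj g g' → eG s(g, g') ≠ L g z)
  have hMN : ∀ _g : V, M ≤ N := fun g => by have := hN g; omega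
  have hinj : ∀ g, ∀ z < N, ∀ z' < N, L g z = L g z' → z = z' := by
    intro g z hz z' hz' h
    have h2 : fG g + (N - q) + z ≡ fG g + (N - q) + z' [MOD N] := h
    exact Nat.ModEq.eq_of_lt_of_lt (Nat.ModEq.add_left_cancel' _ h2) hz hz'
  have hAcard : ∀ g, M ≤ (A g).card := by
    intro g
    have hMN' := hMN g
    have h1 : ((range N).filter (fun z => ¬ ∀ g', G.Adj g g' → eG s(g, g') ≠ L g z)).card ≤
        (G.neighborSet g).ncard := by
      rw [Set.ncard_eq_toFinset_card']
      have hsub : ((range N).filter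
          (fun z => ¬ ∀ g', G.Adj g g' → eG s(g, g') ≠ L g z)).image (L g) ⊆
          ((G.neighborSet g).toFinset).image (fun g' => eG s(g, g')) := by
        intro y hy
        rw [mem_image] at hy
        obtain ⟨z, hz, rfl⟩ := hy
        rw [mem_filter] at hz
        obtain ⟨_, hz2⟩ := hz
        push Not at hz2
        obtain ⟨g', hg', he⟩ := hz2
        rw [mem_image]
        exact ⟨g', by rw [Set.mem_toFinset]; exact hg', he⟩
      have hc := Finset.card_le_card hsub
      rw [Finset.card_image_of_injOn (by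
        intro z hz z' hz' h
        rw [mem_coe, mem_filter, mem_range] at hz hz'
        exact hinj g z hz.1 z' hz'.1 h)] at hc
      exact hc.trans Finset.card_image_le
    have h2 := Finset.card_filter_add_card_filter_not (s := range N)
      (fun z => ∀ g', G.Adj g g' → eG s(g, g') ≠ L g z)
    rw [card_range] at h2
    have h3 : (A g).card = ((range N).filter
      (fun z => ∀ g', G.Adj g g' → eG s(g, g') ≠ L g z)).card := rfl
    have h4 := hN g
    omega
  -- the distance of the label `z` from the label of an edge at `g`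
  have hfar : ∀ g g', G.Adj g g' → ∀ z ≤ 2 * q, Far p N ((L g z : ℤ) - (eG s(g, g') : ℤ)) := by
    intro g g' hgg z hz
    have hMN' := hMN g
    have h1 := far_of (g5 g g' hgg).1 (g5 g g' hgg).2
    have h2 : Far p N ((fG g : ℤ) - (eG s(g, g') : ℤ) + ((z : ℤ) - q)) := by
      refine far_mono h1 ?_
      rw [abs_le]
      constructor <;> [have : (0:ℤ) ≤ z := Int.natCast_nonneg z;
        have : (z : ℤ) ≤ 2 * q := by exact_mod_cast hz] <;> linarith
    have h3 := far_shift h2 1
    have h4 : (fG g : ℤ) - (eG s(g, g') : ℤ) + ((z : ℤ) - q) + 1 * N =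
        ((fG g + (N - q) + z : ℕ) : ℤ) - (eG s(g, g') : ℤ) := by
      push_cast [Nat.cast_sub (show q ≤ N by omega)]
      ring
    rw [h4] at h3
    have h5 := far_mod h3
    have h6 : eG s(g, g') % N = eG s(g, g') := Nat.mod_eq_of_lt (g2 _ hgg)
    rw [h6] at h5
    exact h5
  have hAinit : ∀ g, ∀ z < 2 * q + 1, z ∈ A g := by
    intro g z hz
    have hMN' := hMN g
    refine mem_filter.2 ⟨mem_range.2 (by omega), fun g' hg' he => ?_⟩
    have h1 := hfar g g' hg' z (by omega) 0
    rw [he] at h1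
    simp at h1
    omega
  have hex : ∀ g, ∃ ψ : ℕ → ℕ, (∀ y < M, ψ y ∈ A g) ∧
      (∀ y z, y ≤ z → z < M → ψ y + (z - y) ≤ ψ z) ∧ (∀ y < 2 * q + 1, y < M → ψ y = y) :=
    fun g => enum (A g) (2 * q + 1) M (hAinit g) (hAcard g)
  choose ψ p1 p2 p3 using hex
  have hψN : ∀ g, ∀ y < M, ψ g y < N := fun g y hy => mem_range.1 (mem_filter.1 (p1 g y hy)).1
  have hψinj : ∀ g, ∀ y < M, ∀ z < M, ψ g y = ψ g z → y = z := by
    intro g y hy z hz h
    rcases lt_trichotomy y z with h1 | h1 | h1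
    · have := p2 g y z h1.le hz; omega
    · exact h1
    · have := p2 g z y h1.le hy; omega
  -- the labelling
  let F : V × W → V × W → ℕ := fun x y =>
    if x.1 = y.1 then L x.1 (ψ x.1 (eH s(x.2, y.2))) else eG s(x.1, y.1)
  have hFsymm : ∀ x y, F x y = F y x := by
    intro x y
    by_cases h : x.1 = y.1
    · simp only [F]
      rw [if_pos h, if_pos h.symm, h, Sym2.eq_swap]
    · simp only [F]
      rw [if_neg h, if_neg (fun h' => h h'.symm), Sym2.eq_swap]
  have hFG : ∀ x y : V × W, G.Adj x.1 y.1 → F x y = eG s(x.1, y.1) := by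
    intro x y h
    simp only [F]
    rw [if_neg (G.ne_of_adj h)]
  have hFH : ∀ x y : V × W, x.1 = y.1 → F x y = L x.1 (ψ x.1 (eH s(x.2, y.2))) := by
    intro x y h
    simp only [F]
    rw [if_pos h]
  -- distances inside a copy of `H`
  have hHfar : ∀ g h h', H.Adj h h' →
      Far p N ((L g (fH h) : ℤ) - (L g (ψ g (eH s(h, h'))) : ℤ)) := by
    intro g h h' hh
    have hMN' := hMN g
    obtain ⟨c1, c2⟩ := b5 h h' hh
    have hfh := b1 h
    have he := b2 s(h, h') hh
    have hψf : ψ g (fH h) = fH h := p3 g (fH h) (by omega) (by omega)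
    set a := fH h with ha
    set e := eH s(h, h') with hedef
    have hψe := hψN g e he
    have hM1 : ψ g (M - 1) < N := hψN g (M - 1) (by omega)
    have h1 : Far p N ((a : ℤ) - (ψ g e : ℤ)) := by
      rcases le_total a e with hae | hae
      · have h2 := p2 g a e hae he
        have h3 := p2 g e (M - 1) (by omega) (by omega)
        rw [hψf] at h2
        rw [abs_sub_comm, abs_of_nonneg (by
          have : (a : ℤ) ≤ e := by exact_mod_cast hae
          linarith)] at c1 c2
        apply far_of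
        · rw [abs_sub_comm, abs_of_nonneg (by
            have : (a : ℤ) ≤ ψ g e := by exact_mod_cast (by omega : a ≤ ψ g e)
            linarith)]
          omega
        · rw [abs_sub_comm, abs_of_nonneg (by
            have : (a : ℤ) ≤ ψ g e := by exact_mod_cast (by omega : a ≤ ψ g e)
            linarith)]
          omega
      · have h2 := p2 g e a hae (by omega)
        have h3 : ψ g e = e := p3 g e (by omega) (by omega)
        rw [h3]
        apply far_of
        · exact c1
        · refine c2.trans ?_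
          have : (M : ℤ) ≤ N := by exact_mod_cast hMN'
          linarith
    have h2 : ((fG g + (N - q) + a : ℕ) : ℤ) - ((fG g + (N - q) + ψ g e : ℕ) : ℤ) =
        (a : ℤ) - (ψ g e : ℤ) := by push_cast; ring
    rw [← h2] at h1
    exact far_mod h1
  refine ⟨fun x => L x.1 (fH x.2), fun z => Sym2.lift ⟨F, hFsymm⟩ z, ?_, ?_, ?_, ?_, ?_⟩
  · rintro ⟨g, h⟩
    have hMN' := hMN g
    exact Nat.mod_lt _ (by omega)
  · intro z hz
    induction z using Sym2.ind with
    | _ x y =>
      obtain ⟨g, h⟩ := x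
      obtain ⟨g', h'⟩ := y
      have hMN' := hMN g
      have hadj : (G.boxProd H).Adj (g, h) (g', h') := hz
      rw [SimpleGraph.boxProd_adj] at hadj
      simp only [Sym2.lift_mk]
      rcases hadj with ⟨ha, _⟩ | ⟨ha, heq⟩
      · rw [hFG _ _ ha]
        exact g2 _ ha
      · rw [hFH _ _ heq]
        exact Nat.mod_lt _ (by omega)
  · rintro ⟨g, h⟩ ⟨g', h'⟩ hadj
    have hMN' := hMN g
    rw [SimpleGraph.boxProd_adj] at hadj
    simp only at hadj ⊢
    rcases hadj with ⟨ha, heq⟩ | ⟨ha, heq⟩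
    · subst heq
      intro h2
      have h3 : fG g + (N - q + fH h) ≡ fG g' + (N - q + fH h) [MOD N] := by
        rw [← Nat.add_assoc, ← Nat.add_assoc]; exact h2
      exact g3 g g' ha (Nat.ModEq.eq_of_lt_of_lt (Nat.ModEq.add_right_cancel' _ h3) (g1 g) (g1 g'))
    · subst heq
      intro h2
      have := hinj g (fH h) (by have := b1 h; omega) (fH h') (by have := b1 h'; omega) h2
      exact b3 h h' ha this
  · rintro ⟨g, h⟩ ⟨g', h'⟩ ⟨g'', h''⟩ hadj hadj' hne
    have hMN' := hMN g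
    rw [SimpleGraph.boxProd_adj] at hadj hadj'
    simp only [Sym2.lift_mk] at hadj hadj' ⊢
    rcases hadj with ⟨ha, heq⟩ | ⟨ha, heq⟩ <;> rcases hadj' with ⟨ha', heq'⟩ | ⟨ha', heq'⟩
    · rw [hFG (g, h) (g', h') ha, hFG (g, h) (g'', h'') ha']
      refine g4 g g' g'' ha ha' ?_
      rintro rfl
      exact hne (by rw [← heq, ← heq'])
    · rw [hFG (g, h) (g', h') ha, hFH (g, h) (g'', h'') heq']
      simp only
      exact (mem_filter.1 (p1 g (eH s(h, h'')) (b2 _ ha'))).2 g' ha
    · rw [hFG (g, h) (g'', h'') ha', hFH (g, h) (g', h') heq]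
      simp only
      exact fun h0 => (mem_filter.1 (p1 g (eH s(h, h')) (b2 _ ha))).2 g'' ha' h0.symm
    · rw [hFH (g, h) (g', h') heq, hFH (g, h) (g'', h'') heq']
      simp only
      intro h0
      have h1 := hinj g _ (hψN g _ (b2 _ ha)) _ (hψN g _ (b2 _ ha')) h0
      have h2 := hψinj g _ (b2 _ ha) _ (b2 _ ha') h1
      refine b4 h h' h'' ha ha' ?_ h2
      rintro rfl
      exact hne (by rw [← heq, ← heq'])
  · rintro ⟨g, h⟩ ⟨g', h'⟩ hadj
    have hMN' := hMN g
    rw [SimpleGraph.boxProd_adj] at hadj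
    simp only [Sym2.lift_mk] at hadj ⊢
    rcases hadj with ⟨ha, heq⟩ | ⟨ha, heq⟩
    · rw [hFG _ _ ha]
      exact of_far (Nat.mod_lt _ (by omega)) (g2 _ ha) (hfar g g' ha (fH h) (b1 h))
    · rw [hFH _ _ heq]
      exact of_far (Nat.mod_lt _ (by omega)) (Nat.mod_lt _ (by omega)) (hHfar g h h' ha)

end Pool.Agent.H50.HYP
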