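import Pool.Agent.H50.HYP.Lin

set_option autoImplicit false

/-! Cycles. -/

namespace Pool.Agent.H50.HYP

open Finset

/-- adjacency in a cycle, in terms of natural numbers -/
def CA (n a b : ℕ) : Prop :=
  a < n ∧ b < n ∧ (b = a + 1 ∨ a = b + 1 ∨ (a = 0 ∧ b + 1 = n) ∨ (b = 0 ∧ a + 1 = n))

theorem ca_of_adj {n : ℕ} {u v : Fin n} (h : (SimpleGraph.cycleGraph n).Adj u v) :
    CA n u.1 v.1 := by
  have key : ∀ a b : ℕ, a < n → b < n → (n - b + a) % n = 1 →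
      (a = b + 1 ∨ (a = 0 ∧ b + 1 = n)) := by
    intro a b ha hb h
    rcases Nat.lt_or_ge (n - b + a) n with h1 | h1
    · rw [Nat.mod_eq_of_lt h1] at h
      omega
    · rw [Nat.mod_eq_sub_mod h1, Nat.mod_eq_of_lt (by omega)] at h
      omega
  rw [SimpleGraph.cycleGraph_adj'] at h
  refine ⟨u.2, v.2, ?_⟩
  rcases h with h | h
  · rw [Fin.val_sub] at h
    have := key u.1 v.1 u.2 v.2 h
    omega
  · rw [Fin.val_sub] at h
    have := key v.1 u.1 v.2 u.2 h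
    omega

/-- the labels of the vertices -/
def cyV (n i : ℕ) : ℕ := if n % 2 = 1 ∧ i + 1 = n then 2 else i % 2

/-- the labels of the edges -/
def cyE (n p i j : ℕ) : ℕ :=
  if max i j ≠ min i j + 1 then p + 2
  else if n % 2 = 1 ∧ max i j + 1 = n then (if p = 1 then 0 else p + 3)
  else p + 1 + min i j % 2

theorem cyE_comm (n p i j : ℕ) : cyE n p i j = cyE n p j i := by
  unfold cyE
  rw [max_comm, min_comm]

theorem cyV_ne {n a b : ℕ} (hn : 3 ≤ n) (h : CA n a b) : cyV n a ≠ cyV n b := by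
  obtain ⟨h1, h2, h3⟩ := h
  unfold cyV
  split_ifs <;> omega

theorem cyE_ne {n p a b c : ℕ} (hn : 3 ≤ n) (hp : 1 ≤ p) (h : CA n a b) (h' : CA n a c)
    (hbc : b ≠ c) : cyE n p a b ≠ cyE n p a c := by
  obtain ⟨h1, h2, h3⟩ := h
  obtain ⟨_, h2', h3'⟩ := h'
  unfold cyE
  simp only [max_def, min_def]
  split_ifs <;> omega

theorem cyE_far {n p a b : ℕ} (hp : 1 ≤ p) (h : CA n a b) :
    (p : ℤ) ≤ |(cyV n a : ℤ) - (cyE n p a b : ℤ)| ∧
      |(cyV n a : ℤ) - (cyE n p a b : ℤ)| ≤ ((2 + 2 * p : ℕ) : ℤ) - p := by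
  obtain ⟨h1, h2, h3⟩ := h
  have key : (cyV n a + p ≤ cyE n p a b ∧ cyE n p a b ≤ cyV n a + (2 + p)) ∨
      (cyE n p a b + p ≤ cyV n a ∧ cyV n a ≤ cyE n p a b + (2 + p)) := by
    unfold cyV cyE
    simp only [max_def, min_def]
    split_ifs <;> omega
  rw [le_abs, abs_le]
  omega

theorem cyE_lt {n p a b : ℕ} (hp : 1 ≤ p) : cyE n p a b < 2 + 2 * p := by
  unfold cyE
  split_ifs <;> omega

theorem cycle_circ (n p : ℕ) (hn : 3 ≤ n) (hp : 1 ≤ p) :
    CircB (SimpleGraph.cycleGraph n) p (2 + 2 * p) (2 * 1) := by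
  refine ⟨fun i => cyV n i.1, fun z => Sym2.lift ⟨fun i j : Fin n => cyE n p i.1 j.1,
    fun i j => cyE_comm n p i.1 j.1⟩ z, ?_, ?_, ?_, ?_, ?_⟩
  · intro i
    change cyV n i.1 ≤ 2 * 1
    unfold cyV
    split_ifs <;> omega
  · intro z hz
    induction z using Sym2.ind with
    | _ u v =>
      simp only [Sym2.lift_mk]
      exact cyE_lt hp
  · intro u v h
    exact cyV_ne hn (ca_of_adj h)
  · intro u v w h h' hvw
    simp only [Sym2.lift_mk]
    exact cyE_ne hn hp (ca_of_adj h) (ca_of_adj h') (fun e => hvw (Fin.ext e))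
  · intro u v h
    simp only [Sym2.lift_mk]
    exact cyE_far hp (ca_of_adj h)

theorem cycle_deg (n : ℕ) (hn : 3 ≤ n) (v : Fin n) :
    ((SimpleGraph.cycleGraph n).neighborSet v).ncard = 2 := by
  obtain ⟨m, rfl⟩ : ∃ m, n = m + 3 := ⟨n - 3, by omega⟩
  rw [Set.ncard_eq_toFinset_card', ← SimpleGraph.neighborFinset_def,
    SimpleGraph.card_neighborFinset_eq_degree]
  exact SimpleGraph.cycleGraph_degree_three_le

end Pool.Agent.H50.HYP
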