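import Pool.Agent.H50.HYP.Circ

set_option autoImplicit false

/-! Linear labellings of Cartesian products with a bipartite factor; bipartite graphs and cycles. -/

namespace Pool.Agent.H50.HYP

open Finset

/-- a (p,1)-total labelling of span `l` -/
def Tot {V : Type} (G : SimpleGraph V) (p l : ℕ) : Prop :=
  ∃ (fV : V → ℕ) (fE : Sym2 V → ℕ),
    (∀ v, fV v ≤ l) ∧ (∀ e ∈ G.edgeSet, fE e ≤ l) ∧
    (∀ u v, G.Adj u v → fV u ≠ fV v) ∧
    (∀ u v w, G.Adj u v → G.Adj u w → v ≠ w → fE s(u, v) ≠ fE s(u, w)) ∧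
    (∀ u v, G.Adj u v → (p : ℤ) ≤ |(fV u : ℤ) - (fE s(u, v) : ℤ)|)

theorem Circ.tot {V : Type} {G : SimpleGraph V} {p N : ℕ} (h : Circ G p N) :
    Tot G p (N - 1) := by
  obtain ⟨fV, fE, h1, h2, h3, h4, h5⟩ := h
  exact ⟨fV, fE, fun v => Nat.le_sub_one_of_lt (h1 v), fun e he => Nat.le_sub_one_of_lt (h2 e he),
    h3, h4, fun u v huv => (h5 u v huv).1⟩

/-- König's theorem for bipartite graphs -/
theorem bip_cols {W : Type} [Fintype W] (B : SimpleGraph W) (D : ℕ) (hB : B.Colorable 2)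
    (hD : ∀ w, (B.neighborSet w).ncard ≤ D) :
    ∃ (b : W → ℕ) (cc : W → W → ℕ), (∀ w, b w ≤ 1) ∧ (∀ u v, B.Adj u v → b u ≠ b v) ∧
      (∀ u v, cc u v = cc v u) ∧ (∀ u v, B.Adj u v → cc u v < D) ∧
      ∀ u v v', B.Adj u v → B.Adj u v' → cc u v = cc u v' → v = v' := by
  obtain ⟨C⟩ := hB
  let b : W → ℕ := fun w => (C w : ℕ)
  have hb1 : ∀ w, b w ≤ 1 := fun w => by
    have := (C w).2
    change (C w : ℕ) ≤ 1
    omega
  have hb2 : ∀ u v, B.Adj u v → b u ≠ b v := fun u v h h' => C.valid h (Fin.ext h')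
  obtain ⟨cc, h1, h2, h3⟩ := Pool.Agent.N411.HYO.pair_cols B b D hb2 (by
    intro v y
    refine (Set.ncard_le_ncard ?_ (Set.toFinite _)).trans (hD v)
    rintro u ⟨hu, _⟩
    exact hu)
  refine ⟨b, cc, hb1, hb2, h1, h2, fun u v v' h h' he => h3 u v v' h h' ?_ he⟩
  have e1 := hb2 u v h
  have e2 := hb2 u v' h'
  have e3 := hb1 u
  have e4 := hb1 v
  have e5 := hb1 v'
  omega

/-- the trivial circular labelling of a graph with `m + 1` vertex colours and `k'` edge colours -/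
theorem short_all {W : Type} (H : SimpleGraph W) (m k' p : ℕ) (hp : 1 ≤ p)
    (b : W → ℕ) (cc : W → W → ℕ) (h1 : ∀ w, b w ≤ m) (h2 : ∀ u v, H.Adj u v → b u ≠ b v)
    (h3 : ∀ u v, cc u v = cc v u) (h4 : ∀ u v, H.Adj u v → cc u v < k')
    (h5 : ∀ u v v', H.Adj u v → H.Adj u v' → cc u v = cc u v' → v = v') :
    CircB H p (m + k' + 2 * p - 1) m := by
  refine ⟨b, fun z => Sym2.lift ⟨fun u v => p + m + cc u v, fun u v => by simp only [h3 u v]⟩ z,
    h1, ?_, h2, ?_, ?_⟩
  · intro z hz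
    induction z using Sym2.ind with
    | _ u v =>
      have huv : H.Adj u v := hz
      simp only [Sym2.lift_mk]
      have := h4 u v huv
      omega
  · intro u v w huv huw hvw
    simp only [Sym2.lift_mk]
    intro h
    exact hvw (h5 u v w huv huw (by omega))
  · intro u v huv
    simp only [Sym2.lift_mk]
    have e1 := h4 u v huv
    have e2 := h1 u
    rw [le_abs, abs_le]
    have e3 : ((m + k' + 2 * p - 1 : ℕ) : ℤ) = (m : ℤ) + k' + 2 * p - 1 := by
      push_cast [Nat.cast_sub (show 1 ≤ m + k' + 2 * p by omega)]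
      ring
    rw [e3]
    push_cast
    omega

theorem bip_circ {W : Type} [Fintype W] (B : SimpleGraph W) (D p : ℕ) (hp : 1 ≤ p)
    (hB : B.Colorable 2) (hD : ∀ w, (B.neighborSet w).ncard ≤ D) :
    CircB B p (D + 2 * p) (2 * 1) := by
  obtain ⟨b, cc, h1, h2, h3, h4, h5⟩ := bip_cols B D hB hD
  obtain ⟨fV, fE, e1, e2, e3⟩ := short_all B 1 D p hp b cc h1 h2 h3 h4 h5
  have e : 1 + D + 2 * p - 1 = D + 2 * p := by omega
  rw [e] at e2 e3
  exact ⟨fV, fE, fun v => (e1 v).trans (by norm_num), e2, e3⟩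

/-- **Product theorem**, linear form. -/
theorem prod_lin {V W : Type} [Fintype V] (G : SimpleGraph V) (B : SimpleGraph W)
    (p m D N : ℕ) (hp : 1 ≤ p)
    (b : W → ℕ) (cc : W → W → ℕ) (b1 : ∀ w, b w ≤ m) (b2 : ∀ u v, B.Adj u v → b u ≠ b v)
    (b3 : ∀ u v, cc u v = cc v u) (b4 : ∀ u v, B.Adj u v → cc u v < D)
    (b5 : ∀ u v v', B.Adj u v → B.Adj u v' → cc u v = cc u v' → v = v')
    (x : V → ℕ) (eG : Sym2 V → ℕ) (hx : ∀ g, x g + m < N) (g2 : ∀ e ∈ G.edgeSet, eG e < N)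
    (g3 : ∀ u v, G.Adj u v → x u ≠ x v)
    (g4 : ∀ u v w, G.Adj u v → G.Adj u w → v ≠ w → eG s(u, v) ≠ eG s(u, w))
    (g5 : ∀ u v, G.Adj u v → eG s(u, v) + p ≤ x u ∨ x u + m + p ≤ eG s(u, v))
    (hN : ∀ g, (G.neighborSet g).ncard + D + m + 2 * p ≤ N + 1) :
    Tot (G.boxProd B) p (N - 1) := by
  classical
  -- the labels that can be used for the edges of the copy of `B` at `g`
  let A : V → Finset ℕ := fun g => ((range N) \ (Ico (x g + 1 - p) (x g + m + p))) \
    ((G.neighborSet g).toFinset.image (fun g' => eG s(g, g')))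
  have hAcard : ∀ g, D ≤ (A g).card := by
    intro g
    have h1 : ((G.neighborSet g).toFinset.image (fun g' => eG s(g, g'))).card ≤
        (G.neighborSet g).ncard := by
      rw [Set.ncard_eq_toFinset_card']
      exact Finset.card_image_le
    have h2 : (Ico (x g + 1 - p) (x g + m + p)).card + 1 ≤ m + 2 * p := by
      rw [Nat.card_Ico]
      omega
    have h3 := Finset.le_card_sdiff ((G.neighborSet g).toFinset.image (fun g' => eG s(g, g')))
      ((range N) \ (Ico (x g + 1 - p) (x g + m + p)))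
    have h4 := Finset.le_card_sdiff (Ico (x g + 1 - p) (x g + m + p)) (range N)
    rw [card_range] at h4
    have h5 := hN g
    change D ≤ (((range N) \ (Ico (x g + 1 - p) (x g + m + p))) \
      ((G.neighborSet g).toFinset.image (fun g' => eG s(g, g')))).card
    omega
  have hex : ∀ g, ∃ ψ : ℕ → ℕ, (∀ y < D, ψ y ∈ A g) ∧
      (∀ y z, y ≤ z → z < D → ψ y + (z - y) ≤ ψ z) ∧ (∀ y < 0, y < D → ψ y = y) :=
    fun g => enum (A g) 0 D (fun z hz => absurd hz (Nat.not_lt_zero z)) (hAcard g)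
  choose ψ p1 p2 _ using hex
  have hψinj : ∀ g, ∀ y < D, ∀ z < D, ψ g y = ψ g z → y = z := by
    intro g y hy z hz h
    rcases lt_trichotomy y z with h1 | h1 | h1
    · have := p2 g y z h1.le hz; omega
    · exact h1
    · have := p2 g z y h1.le hy; omega
  have hψA : ∀ g, ∀ y < D, ψ g y < N ∧ (ψ g y + p ≤ x g ∨ x g + m + p ≤ ψ g y) ∧
      ∀ g', G.Adj g g' → eG s(g, g') ≠ ψ g y := by
    intro g y hy
    have h1 := p1 g y hy
    simp only [A, mem_sdiff, mem_range, mem_Ico, mem_image, Set.mem_toFinset,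
      SimpleGraph.mem_neighborSet, not_exists, not_and] at h1
    obtain ⟨⟨h2, h3⟩, h4⟩ := h1
    refine ⟨h2, ?_, fun g' hg' => h4 g' hg'⟩
    by_contra hcon
    push Not at hcon
    have := h3 (by omega)
    omega
  let F : V × W → V × W → ℕ := fun u v =>
    if u.1 = v.1 then ψ u.1 (cc u.2 v.2) else eG s(u.1, v.1)
  have hFsymm : ∀ u v, F u v = F v u := by
    intro u v
    by_cases h : u.1 = v.1
    · simp only [F]
      rw [if_pos h, if_pos h.symm, h, b3]
    · simp only [F]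
      rw [if_neg h, if_neg (fun h' => h h'.symm), Sym2.eq_swap]
  have hFG : ∀ u v : V × W, G.Adj u.1 v.1 → F u v = eG s(u.1, v.1) := by
    intro u v h
    simp only [F]
    rw [if_neg (G.ne_of_adj h)]
  have hFB : ∀ u v : V × W, u.1 = v.1 → F u v = ψ u.1 (cc u.2 v.2) := by
    intro u v h
    simp only [F]
    rw [if_pos h]
  refine ⟨fun u => x u.1 + b u.2, fun z => Sym2.lift ⟨F, hFsymm⟩ z, ?_, ?_, ?_, ?_, ?_⟩
  · rintro ⟨g, h⟩
    have e1 := hx g
    have e2 := b1 h
    simp only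
    omega
  · intro z hz
    induction z using Sym2.ind with
    | _ u v =>
      obtain ⟨g, h⟩ := u
      obtain ⟨g', h'⟩ := v
      have hadj : (G.boxProd B).Adj (g, h) (g', h') := hz
      rw [SimpleGraph.boxProd_adj] at hadj
      simp only [Sym2.lift_mk]
      rcases hadj with ⟨ha, _⟩ | ⟨ha, heq⟩
      · rw [hFG _ _ ha]
        have := g2 s(g, g') ha
        simp only
        omega
      · rw [hFB _ _ heq]
        have := (hψA g (cc h h') (b4 h h' ha)).1
        simp only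
        omega
  · rintro ⟨g, h⟩ ⟨g', h'⟩ hadj
    rw [SimpleGraph.boxProd_adj] at hadj
    simp only at hadj ⊢
    rcases hadj with ⟨ha, heq⟩ | ⟨ha, heq⟩
    · subst heq
      have := g3 g g' ha
      omega
    · subst heq
      have := b2 h h' ha
      omega
  · rintro ⟨g, h⟩ ⟨g', h'⟩ ⟨g'', h''⟩ hadj hadj' hne
    rw [SimpleGraph.boxProd_adj] at hadj hadj'
    simp only [Sym2.lift_mk] at hadj hadj' ⊢
    rcases hadj with ⟨ha, heq⟩ | ⟨ha, heq⟩ <;> rcases hadj' with ⟨ha', heq'⟩ | ⟨ha', heq'⟩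
    · rw [hFG (g, h) (g', h') ha, hFG (g, h) (g'', h'') ha']
      refine g4 g g' g'' ha ha' ?_
      rintro rfl
      exact hne (by rw [← heq, ← heq'])
    · rw [hFG (g, h) (g', h') ha, hFB (g, h) (g'', h'') heq']
      simp only
      exact (hψA g _ (b4 _ _ ha')).2.2 g' ha
    · rw [hFG (g, h) (g'', h'') ha', hFB (g, h) (g', h') heq]
      simp only
      exact fun h0 => (hψA g _ (b4 _ _ ha)).2.2 g'' ha' h0.symm
    · rw [hFB (g, h) (g', h') heq, hFB (g, h) (g'', h'') heq']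
      simp only
      intro h0
      have h1 := hψinj g _ (b4 _ _ ha) _ (b4 _ _ ha') h0
      have h2 := b5 h h' h'' ha ha' h1
      exact hne (by rw [← heq, ← heq', h2])
  · rintro ⟨g, h⟩ ⟨g', h'⟩ hadj
    rw [SimpleGraph.boxProd_adj] at hadj
    simp only [Sym2.lift_mk] at hadj ⊢
    have hb := b1 h
    rcases hadj with ⟨ha, heq⟩ | ⟨ha, heq⟩
    · rw [hFG (g, h) (g', h') ha, le_abs]
      have := g5 g g' ha
      simp only
      omega
    · rw [hFB (g, h) (g', h') heq, le_abs]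
      have := (hψA g _ (b4 _ _ ha)).2.1
      simp only
      omega

end Pool.Agent.H50.HYP
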