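import Pool.Agent.H50.HYP.Cycle
import Pool.Agent.H238R2.HY.Main
import Pool.Agent.W378.KF.Ball
import Pool.Agent.W215.KF.Paths
import Pool.Agent.W305.KF.Mark
import Pool.Agent.W723.KF.Cut
import Pool.Agent.W177.KF.Hoef
import Pool.Agent.W613.KF.Flip
import Pool.Agent.W240.KF.Level
import Pool.Agent.W853.KF.SG
import Pool.Agent.W52.KF.Rec
import Pool.Agent.W372.KF.Phase
import Pool.Agent.W319.KF.Edge
import Pool.Agent.W583.KF.Lab

set_option autoImplicit false

/-! The Havet–Yu conjecture for Cartesian products with a bipartite factor. -/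

namespace Pool.Agent.H50.HYP

open Pool.Agent.W842.KF

theorem t_cut : S_CUT :=
  Pool.Agent.W723.KF.t_cut Pool.Agent.W378.KF.t_ball Pool.Agent.W378.KF.t_bmeet
    Pool.Agent.W378.KF.t_grow Pool.Agent.W215.KF.t_paths Pool.Agent.W215.KF.t_cls
    Pool.Agent.W305.KF.t_mark1 Pool.Agent.W305.KF.t_mark2

theorem t_level : S_LEVEL :=
  Pool.Agent.W240.KF.t_level t_cut
    (Pool.Agent.W613.KF.t_flip Pool.Agent.W215.KF.t_cls Pool.Agent.W177.KF.t_hoef)
    Pool.Agent.W215.KF.t_kempe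

theorem t_phase : S_PHASE :=
  Pool.Agent.W372.KF.t_phase t_level Pool.Agent.W853.KF.t_sg Pool.Agent.W52.KF.t_rec

theorem t_lab : S_LAB :=
  Pool.Agent.W583.KFLab.t_lab (Pool.Agent.W319.KF.t_edge t_phase)

theorem circ_log {V : Type} [Fintype V] (G : SimpleGraph V) [DecidableRel G.Adj] (p : ℕ)
    (hp : 1 ≤ p) : ∃ N : ℕ,
      (N : ℝ) ≤ G.maxDegree + 66 * p + 524 * Real.log (G.maxDegree + 1) ∧ Circ G p N := by
  have hlog : 0 ≤ Real.log ((G.maxDegree : ℝ) + 1) :=
    Real.log_nonneg (by have : (0 : ℝ) ≤ G.maxDegree := Nat.cast_nonneg _; linarith)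
  have hpr : (1 : ℝ) ≤ p := by exact_mod_cast hp
  rcases Nat.lt_or_ge (G.maxDegree + 1) 64 with h64 | h64
  · refine ⟨2 * G.maxDegree + 2 * p, ?_, Pool.Agent.H238R2.HY.trivial_bound G p hp⟩
    have h1 : (G.maxDegree : ℝ) ≤ 62 := by exact_mod_cast (by omega : G.maxDegree ≤ 62)
    push_cast
    linarith
  · rcases Nat.lt_or_ge (G.maxDegree + 1) (2 * p - 1) with hlt | hge
    · refine ⟨2 * G.maxDegree + 2 * p, ?_, Pool.Agent.H238R2.HY.trivial_bound G p hp⟩
      have h1 : (G.maxDegree : ℝ) ≤ 2 * p := by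
        exact_mod_cast (by omega : G.maxDegree ≤ 2 * p)
      push_cast
      linarith
    · exact t_lab V G p hp h64 hge

/-- `a` is the maximum degree of `G`. -/
def MaxD {V : Type} (G : SimpleGraph V) (a : ℕ) : Prop :=
  (∀ v, (G.neighborSet v).ncard ≤ a) ∧ ∃ v, (G.neighborSet v).ncard = a

theorem maxD_box {V W : Type} [Fintype V] [Fintype W] {G : SimpleGraph V} {H : SimpleGraph W}
    {a b c : ℕ} (hG : MaxD G a) (hH : MaxD H b) (hc : MaxD (G.boxProd H) c) : c = a + b := by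
  obtain ⟨g1, g, g2⟩ := hG
  obtain ⟨h1, h, h2⟩ := hH
  obtain ⟨c1, ⟨g', h'⟩, c2⟩ := hc
  have e1 := c1 (g, h)
  rw [box_ncard] at e1 c2
  have e2 := g1 g'
  have e3 := h1 h'
  omega

theorem maxD_eq {V : Type} [Fintype V] {G : SimpleGraph V} [DecidableRel G.Adj] {a : ℕ}
    (hG : MaxD G a) : G.maxDegree = a := by
  have hd : ∀ v, (G.neighborSet v).ncard = G.degree v := by
    intro v
    rw [Set.ncard_eq_toFinset_card', ← SimpleGraph.neighborFinset_def,
      SimpleGraph.card_neighborFinset_eq_degree]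
  obtain ⟨g1, g, g2⟩ := hG
  apply le_antisymm
  · refine G.maxDegree_le_of_forall_degree_le _ fun v => ?_
    rw [← hd]; exact g1 v
  · rw [← g2, hd]
    exact G.degree_le_maxDegree g

/-- bipartite factor, circular -/
theorem bip_box {V W : Type} [Fintype V] [Fintype W] {G : SimpleGraph V} {B : SimpleGraph W}
    {p a b N : ℕ} (hp : 1 ≤ p) (hB : B.Colorable 2) (hG : MaxD G a) (hb : MaxD B b) (hb1 : 1 ≤ b)
    (h : Circ G (p + 1) N) (hN : N ≤ a + b + 2 * p) : Circ (G.boxProd B) p (a + b + 2 * p) := by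
  refine prod_circ G B p 1 (b + 2 * p) (a + b + 2 * p) hp (by omega) (h.mono hN)
    (bip_circ B b p hp hB hb.1) (fun g => ?_)
  have := hG.1 g
  omega

theorem cycle_box {V : Type} [Fintype V] {G : SimpleGraph V} {p a n : ℕ} (hp : 1 ≤ p)
    (hn : 3 ≤ n) (hG : MaxD G a) (h : Circ G (p + 1) (a + 2 * (p + 1))) :
    Circ (G.boxProd (SimpleGraph.cycleGraph n)) p (a + 2 + 2 * p) := by
  refine prod_circ G _ p 1 (2 + 2 * p) (a + 2 + 2 * p) hp (by omega) (h.mono (by omega))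
    (cycle_circ n p hn hp) (fun g => ?_)
  have := hG.1 g
  omega

/-- colours of the vertices and of the edges -/
def Cols {V : Type} (G : SimpleGraph V) (k k' : ℕ) : Prop :=
  G.Colorable k ∧ ∃ c : Sym2 V → ℕ, (∀ e ∈ G.edgeSet, c e < k') ∧
    ∀ x y z, G.Adj x y → G.Adj x z → y ≠ z → c s(x, y) ≠ c s(x, z)

theorem cols_data {V : Type} {G : SimpleGraph V} {m k' : ℕ} (h : Cols G (m + 1) k') :
    ∃ (b : V → ℕ) (cc : V → V → ℕ), (∀ w, b w ≤ m) ∧ (∀ u v, G.Adj u v → b u ≠ b v) ∧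
      (∀ u v, cc u v = cc v u) ∧ (∀ u v, G.Adj u v → cc u v < k') ∧
      ∀ u v v', G.Adj u v → G.Adj u v' → cc u v = cc u v' → v = v' := by
  obtain ⟨⟨t⟩, c, hc, hc'⟩ := h
  refine ⟨fun v => (t v : ℕ), fun u v => c s(u, v), fun v => ?_,
    fun u v huv he => t.valid huv (Fin.ext he), fun u v => congrArg c Sym2.eq_swap,
    fun u v huv => hc _ huv, fun u v v' h h' he => ?_⟩
  · have := (t v).2
    change (t v : ℕ) ≤ m
    omega
  · by_contra hne
    exact hc' u v v' h h' hne he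

/-- König's theorem -/
theorem bip_Cols {W : Type} [Fintype W] {B : SimpleGraph W} {b : ℕ} (hB : B.Colorable 2)
    (hb : MaxD B b) : Cols B 2 b := by
  refine ⟨hB, ?_⟩
  obtain ⟨_, cc, _, _, h3, h4, h5⟩ := bip_cols B b hB hb.1
  refine ⟨fun z => Sym2.lift ⟨cc, h3⟩ z, ?_, ?_⟩
  · intro z hz
    induction z using Sym2.ind with
    | _ u v =>
      simp only [Sym2.lift_mk]
      exact h4 u v hz
  · intro x y z hxy hxz hyz he
    simp only [Sym2.lift_mk] at he
    exact hyz (h5 x y z hxy hxz he)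

/-- Vizing's theorem and the greedy colouring -/
theorem viz_Cols {V : Type} [Fintype V] {G : SimpleGraph V} {a : ℕ} (hG : MaxD G a) :
    Cols G (a + 1) (a + 1) := by
  classical
  have hd : ∀ v, G.degree v ≤ a := by
    intro v
    have := hG.1 v
    rwa [Set.ncard_eq_toFinset_card', ← SimpleGraph.neighborFinset_def,
      SimpleGraph.card_neighborFinset_eq_degree] at this
  obtain ⟨s, s1, s2⟩ := Pool.Agent.H238R2.HY.greedy G a hd
  obtain ⟨c, c1, c2, c3⟩ := Pool.Agent.H238R2.HY.vizing G a hd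
  refine ⟨⟨SimpleGraph.Coloring.mk (fun v => (⟨s v, Nat.lt_succ_of_le (s1 v)⟩ : Fin (a + 1)))
    (fun {u v} huv he => s2 u v huv (by simpa using he))⟩,
    fun z => Sym2.lift ⟨c, c1⟩ z, ?_, ?_⟩
  · intro z hz
    induction z using Sym2.ind with
    | _ u v =>
      simp only [Sym2.lift_mk]
      exact Nat.lt_succ_of_le (c2 u v hz)
  · intro x y z hxy hxz hyz
    simp only [Sym2.lift_mk]
    exact c3 x y z hxy hxz hyz

/-- circular product theorem, any second factor -/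
theorem box_all {V W : Type} [Fintype V] [Fintype W] {G : SimpleGraph V} {H : SimpleGraph W}
    {p a m k' N : ℕ} (hp : 1 ≤ p) (hG : MaxD G a) (hH : Cols H (m + 1) k') (hk' : 1 ≤ k')
    (h : Circ G (p + (m + 1) / 2) N) (hN : N ≤ a + m + k' + 2 * p - 1) :
    Circ (G.boxProd H) p (a + m + k' + 2 * p - 1) := by
  obtain ⟨b, cc, h1, h2, h3, h4, h5⟩ := cols_data hH
  obtain ⟨fV, fE, e1, e2⟩ := short_all H m k' p hp b cc h1 h2 h3 h4 h5
  refine prod_circ G H p ((m + 1) / 2) (m + k' + 2 * p - 1) (a + m + k' + 2 * p - 1) hp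
    (by omega) (h.mono hN) ⟨fV, fE, fun v => (e1 v).trans (by omega), e2⟩ (fun g => ?_)
  have := hG.1 g
  omega

/-- the condition for the unconditional theorem; `k = m + 1` is the number of vertex colours -/
def Cond (p a m k' : ℕ) : Prop :=
  a + 2 ≤ k' ∨ 3 + 8 * ((a : ℝ) ^ (2 / 3 : ℝ) * Real.log a ^ (1 / 3 : ℝ)) ≤ k' ∨
    64 * (p : ℝ) + 32 * ((m + 1 : ℕ) : ℝ) + 2 + 524 * Real.log (a + 1) ≤ k'

theorem uncond {V W : Type} [Fintype V] [Fintype W] {G : SimpleGraph V} {H : SimpleGraph W}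
    {p a m k' : ℕ} (hp : 1 ≤ p) (hG : MaxD G a) (hH : Cols H (m + 1) k') (h : Cond p a m k') :
    Circ (G.boxProd H) p (a + m + k' + 2 * p - 1) := by
  classical
  have ha := maxD_eq hG
  have hm2 : 2 * ((m + 1) / 2) ≤ m + 1 := by omega
  have hm2r : 2 * (((m + 1) / 2 : ℕ) : ℝ) ≤ m + 1 := by exact_mod_cast hm2
  have hcast : ((a + m + k' + 2 * p - 1 : ℕ) : ℝ) = (a : ℝ) + m + k' + 2 * p - 1 := by
    rw [Nat.cast_sub (by omega)]
    push_cast
    ring
  rcases h with h | h | h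
  · have h1 := Pool.Agent.H238R2.HY.trivial_bound G (p + (m + 1) / 2) (by omega)
    rw [ha] at h1
    exact box_all hp hG hH (by omega) h1 (by omega)
  · obtain ⟨N, hN, hC⟩ := Pool.Agent.H238R2.HY.main G (p + (m + 1) / 2) (by omega)
    rw [ha] at hN
    have herr := Pool.Agent.H238R2.HY.err_nonneg a
    unfold Pool.Agent.H238R2.HY.err at hN herr
    rw [Nat.cast_add] at hN
    have h1 : (N : ℝ) ≤ ((a + m + k' + 2 * p - 1 : ℕ) : ℝ) := by rw [hcast]; linarith
    have h2 : (1 : ℝ) ≤ k' := by linarith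
    exact box_all hp hG hH (by exact_mod_cast h2) hC (by exact_mod_cast h1)
  · obtain ⟨N, hN, hC⟩ := circ_log G (p + (m + 1) / 2) (by omega)
    rw [ha] at hN
    have hlog : 0 ≤ Real.log ((a : ℝ) + 1) :=
      Real.log_nonneg (by have : (0 : ℝ) ≤ a := Nat.cast_nonneg _; linarith)
    have hp0 : (0 : ℝ) ≤ p := Nat.cast_nonneg _
    have hm0 : (0 : ℝ) ≤ m := Nat.cast_nonneg _
    rw [Nat.cast_add] at hN h
    push_cast at h
    have h1 : (N : ℝ) ≤ ((a + m + k' + 2 * p - 1 : ℕ) : ℝ) := by rw [hcast]; linarith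
    have h2 : (1 : ℝ) ≤ k' := by linarith
    exact box_all hp hG hH (by exact_mod_cast h2) hC (by exact_mod_cast h1)

/-- linear form: `G` has few colours -/
theorem lin_cols {V W : Type} [Fintype V] {G : SimpleGraph V} {H : SimpleGraph W}
    {p a m k' j j' : ℕ} (hp : 1 ≤ p) (hG : MaxD G a) (hH : Cols H (m + 1) k')
    (hGc : Cols G j j') (h : j + j' ≤ a + k' + p) :
    Tot (G.boxProd H) p (a + m + k' + 2 * p - 1 - 1) := by
  obtain ⟨b, cc, h1, h2, h3, h4, h5⟩ := cols_data hH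
  obtain ⟨⟨t⟩, c, hc, hc'⟩ := hGc
  refine prod_lin G H p m k' (a + m + k' + 2 * p - 1) hp b cc h1 h2 h3 h4 h5
    (fun v => (t v : ℕ)) (fun e => a + m + k' + 2 * p - 1 - j' + c e) ?_ ?_
    (fun u v huv he => t.valid huv (Fin.ext he)) ?_ ?_ ?_
  · intro g
    have := (t g).2
    change (t g : ℕ) + m < _
    omega
  · intro e he
    have h6 := hc e he
    obtain ⟨_, g, _⟩ := hG
    have h7 := (t g).2
    omega
  · intro u v w huv huw hvw he
    exact hc' u v w huv huw hvw (by omega)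
  · intro u v huv
    right
    have h1 := (t u).2
    have h2 := hc s(u, v) huv
    change (t u : ℕ) + m + p ≤ _
    omega
  · intro g
    have := hG.1 g
    omega

/-- linear form: `G` satisfies the conjecture -/
theorem lin_hy {V W : Type} [Fintype V] [Fintype W] {G : SimpleGraph V} {B : SimpleGraph W}
    {p a b : ℕ} (hp : 1 ≤ p) (hB : B.Colorable 2) (hG : MaxD G a) (hb : MaxD B b) (hb3 : 3 ≤ b)
    (h : Tot G (p + 1) (a + b + 2 * p - 2)) : Tot (G.boxProd B) p (a + b + 2 * p - 1) := by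
  obtain ⟨fV, fE, h1, h2, h3, h4, h5⟩ := h
  obtain ⟨t, cc, t1, t2, t3, t4, t5⟩ := bip_cols B b hB hb.1
  refine prod_lin G B p 1 b (a + b + 2 * p) hp t cc t1 t2 t3 t4 t5 fV fE ?_ ?_ h3 h4 ?_ ?_
  · intro g
    have := h1 g
    omega
  · intro e he
    have := h2 e he
    omega
  · intro u v huv
    have := h5 u v huv
    rw [le_abs] at this
    push_cast at this
    omega
  · intro g
    have := hG.1 g
    omega

end Pool.Agent.H50.HYP
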